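import Mathlib

/-! Arithmetic of the windows. -/

set_option autoImplicit false

namespace Pool.Agent.X43.QE

open Filter

/-- base of the codes in window `j` -/
def SS (j : ℕ) : ℕ := 2 ^ 2 ^ (j ^ 4 - 2 * j)

/-- modulus in window `j` -/
def MM (j : ℕ) : ℕ := SS j ^ (2 * j + 1)

/-- length of window `j` -/
def len (j : ℕ) : ℕ := (j + 1) ^ 4 - j ^ 4

/-- the threshold -/
def th (j : ℕ) : ℕ := 2 * j ^ 2 + 2 * j + 1

/-- the window of `t` -/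
def W (t : ℕ) : ℕ := Nat.sqrt (Nat.sqrt t)

theorem len_eq (j : ℕ) : len j = 4 * j ^ 3 + 6 * j ^ 2 + 4 * j + 1 := by
  unfold len
  have : (j + 1) ^ 4 = j ^ 4 + (4 * j ^ 3 + 6 * j ^ 2 + 4 * j + 1) := by ring
  omega

theorem len_lt (j : ℕ) : len j < (2 * j + 1 + 1) * th j := by
  rw [len_eq]; unfold th
  have : (2 * j + 1 + 1) * (2 * j ^ 2 + 2 * j + 1) = 4 * j ^ 3 + 8 * j ^ 2 + 6 * j + 2 := by ring
  rw [this]
  have := Nat.zero_le (j ^ 2)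
  omega

theorem add_len (j : ℕ) : j ^ 4 + len j = (j + 1) ^ 4 := by
  rw [len_eq]; ring

theorem W_eq {j t : ℕ} (h1 : j ^ 4 ≤ t) (h2 : t < (j + 1) ^ 4) : W t = j := by
  unfold W
  symm
  rw [Nat.eq_sqrt']
  have e1 : j ^ 4 = (j ^ 2) ^ 2 := by ring
  have e2 : (j + 1) ^ 4 = ((j + 1) ^ 2) ^ 2 := by ring
  constructor
  · rw [Nat.le_sqrt', ← e1]; exact h1
  · rw [Nat.sqrt_lt', ← e2]; exact h2

theorem W_spec (t : ℕ) : W t ^ 4 ≤ t ∧ t < (W t + 1) ^ 4 := by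
  have h : W t ^ 2 ≤ Nat.sqrt t ∧ Nat.sqrt t < (W t + 1) ^ 2 :=
    ⟨Nat.sqrt_le' _, Nat.lt_succ_sqrt' _⟩
  have e1 : W t ^ 4 = (W t ^ 2) ^ 2 := by ring
  have e2 : (W t + 1) ^ 4 = ((W t + 1) ^ 2) ^ 2 := by ring
  rw [e1, e2]
  exact ⟨Nat.le_sqrt'.1 h.1, Nat.sqrt_lt'.1 h.2⟩

theorem W_add {j i : ℕ} (hi : i < len j) : W (j ^ 4 + i) = j :=
  W_eq (by omega) (by have := add_len j; omega)

theorem W_mono {s t : ℕ} (h : s ≤ t) : W s ≤ W t := Nat.sqrt_le_sqrt (Nat.sqrt_le_sqrt h)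

theorem W_ge {j t : ℕ} (h : j ^ 4 ≤ t) : j ≤ W t := by
  by_contra hcon
  push Not at hcon
  have h1 := (W_spec t).2
  have h2 : (W t + 1) ^ 4 ≤ j ^ 4 := Nat.pow_le_pow_left hcon 4
  omega

theorem cube_le (m : ℕ) (hm : 25 ≤ m) : 192 * (m + 1) ^ 3 ≤ 2 ^ m := by
  induction m, hm using Nat.le_induction with
  | base => norm_num
  | succ m hm ih =>
    rw [pow_succ]
    have : 192 * (m + 1 + 1) ^ 3 ≤ 192 * (m + 1) ^ 3 * 2 := by
      have e1 : 192 * (m + 1 + 1) ^ 3 = 192 * (m ^ 3 + 6 * m ^ 2 + 12 * m + 8) := by ring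
      have e2 : 192 * (m + 1) ^ 3 * 2 = 192 * (2 * m ^ 3 + 6 * m ^ 2 + 6 * m + 2) := by ring
      rw [e1, e2]
      have : 6 * m + 6 ≤ m ^ 3 := by
        have h1 : m * (25 * 25) ≤ m ^ 3 := by
          have : m ^ 3 = m * (m * m) := by ring
          rw [this]; exact Nat.mul_le_mul_left _ (Nat.mul_le_mul hm hm)
        omega
      omega
    calc 192 * (m + 1 + 1) ^ 3 ≤ 192 * (m + 1) ^ 3 * 2 := this
      _ ≤ 2 ^ m * 2 := Nat.mul_le_mul_right _ ih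

theorem big {j : ℕ} (hj : 100 ≤ j) : 3 * j ^ 3 ≤ 2 ^ (j / 4) := by
  refine le_trans ?_ (cube_le (j / 4) (by omega))
  have h1 : j ≤ 4 * (j / 4 + 1) := by omega
  calc 3 * j ^ 3 ≤ 3 * (4 * (j / 4 + 1)) ^ 3 := Nat.mul_le_mul_left _ (Nat.pow_le_pow_left h1 3)
    _ = 192 * (j / 4 + 1) ^ 3 := by ring

theorem fact_le {j n : ℕ} (hj : 100 ≤ j) (hn : n ≤ 3 * j ^ 3) :
    n.factorial ≤ 2 ^ (j ^ 4 - 2 * j) := by
  calc n.factorial ≤ (3 * j ^ 3).factorial := Nat.factorial_le hn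
    _ ≤ (3 * j ^ 3) ^ (3 * j ^ 3) := Nat.factorial_le_pow _
    _ ≤ (2 ^ (j / 4)) ^ (3 * j ^ 3) := Nat.pow_le_pow_left (big hj) _
    _ = 2 ^ (j / 4 * (3 * j ^ 3)) := by rw [← pow_mul]
    _ ≤ 2 ^ (j ^ 4 - 2 * j) := by
        refine Nat.pow_le_pow_right (by norm_num) ?_
        have h1 : j / 4 * 4 ≤ j := Nat.div_mul_le_self j 4
        have h2 : 4 * (j / 4 * (3 * j ^ 3)) ≤ 3 * j ^ 4 := by
          calc 4 * (j / 4 * (3 * j ^ 3)) = (j / 4 * 4) * (3 * j ^ 3) := by ring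
            _ ≤ j * (3 * j ^ 3) := Nat.mul_le_mul_right _ h1
            _ = 3 * j ^ 4 := by ring
        have h3 : 8 * j ≤ j ^ 4 := by
          have : j ^ 4 = j * (j ^ 3) := by ring
          rw [this, mul_comm]
          refine Nat.mul_le_mul_left _ ?_
          calc 8 ≤ 100 ^ 3 := by norm_num
            _ ≤ j ^ 3 := Nat.pow_le_pow_left hj 3
        omega

theorem SS_pos (j : ℕ) : 0 < SS j := Nat.pow_pos (by norm_num)

theorem MM_pos (j : ℕ) : 0 < MM j := Nat.pow_pos (SS_pos j)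

theorem pow_fact_le {j n : ℕ} (hj : 100 ≤ j) (hn : n ≤ 3 * j ^ 3) :
    2 ^ n.factorial ≤ SS j := Nat.pow_le_pow_right (by norm_num) (fact_le hj hn)

theorem slots {j : ℕ} (hj : 100 ≤ j) : 3 * j ^ 3 + 1 ≤ 2 ^ j := by
  have h1 := big hj
  have h2 : 2 ^ (j / 4) < 2 ^ j := Nat.pow_lt_pow_right (by norm_num) (by omega)
  omega

theorem room {j t : ℕ} (hj : 100 ≤ j) (ht : j ^ 4 ≤ t) :
    MM j * SS j ^ (2 ^ j) ≤ 2 ^ 2 ^ t := by
  have h0 : 2 * j + 1 ≤ 2 ^ j := by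
    have h1 := slots hj
    have h2 : 100 * j ≤ 3 * j ^ 3 := by
      have : 3 * j ^ 3 = (3 * j ^ 2) * j := by ring
      rw [this]
      refine Nat.mul_le_mul_right _ ?_
      have : 100 ^ 2 ≤ j ^ 2 := Nat.pow_le_pow_left hj 2
      omega
    omega
  have h3 : 2 * j ≤ j ^ 4 := by
    have : j ^ 4 = j ^ 3 * j := by ring
    rw [this]
    refine Nat.mul_le_mul_right _ ?_
    calc 2 ≤ 100 ^ 3 := by norm_num
      _ ≤ j ^ 3 := Nat.pow_le_pow_left hj 3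
  unfold MM
  rw [← pow_add]
  calc SS j ^ (2 * j + 1 + 2 ^ j) ≤ SS j ^ (2 ^ (j + 1)) :=
        Nat.pow_le_pow_right (SS_pos j) (by rw [pow_succ]; omega)
    _ = 2 ^ (2 ^ (j ^ 4 - 2 * j + (j + 1))) := by
        unfold SS; rw [← pow_mul, ← pow_add]
    _ ≤ 2 ^ 2 ^ t := Nat.pow_le_pow_right (by norm_num)
        (Nat.pow_le_pow_right (by norm_num) (by omega))

theorem two_pow_le_fact {n : ℕ} (hn : 4 ≤ n) : 2 ^ n ≤ n.factorial := by
  induction n, hn using Nat.le_induction with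
  | base => decide
  | succ n hn ih =>
    rw [pow_succ, Nat.factorial_succ, mul_comm]
    exact Nat.mul_le_mul (by omega) ih

theorem growth (a : ℕ) : ∀ᶠ n : ℕ in atTop, 2 ^ (a ^ n) < 2 ^ n.factorial := by
  have h := FloorSemiring.tendsto_pow_div_factorial_atTop (K := ℝ) (a : ℝ)
  have h1 := h.eventually (gt_mem_nhds (show (0 : ℝ) < 1 by norm_num))
  filter_upwards [h1] with n hn
  refine Nat.pow_lt_pow_right (by norm_num) ?_
  have h2 : (0 : ℝ) < (n.factorial : ℝ) := by exact_mod_cast n.factorial_pos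
  rw [div_lt_one h2] at hn
  exact_mod_cast hn

end Pool.Agent.X43.QE
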