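import Pool.Agent.X43.QE.A
import Pool.Agent.X43.QE.B

/-! The functional listing the values repeated often in a window. -/

set_option autoImplicit false

namespace Pool.Agent.X43.QE

open Pool.Agent.Helper446.RE Pool.Agent.Helper298.Oracle Encodable

theorem count_congr' {p q : ℕ → Prop} [DecidablePred p] [DecidablePred q] {N : ℕ}
    (h : ∀ i < N, p i ↔ q i) : Nat.count p N = Nat.count q N := by
  rw [Nat.count_eq_card_filter_range, Nat.count_eq_card_filter_range]
  congr 1
  refine Finset.filter_congr fun i hi => h i (Finset.mem_range.1 hi)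

theorem pigeon (v : ℕ → ℕ) (N q θ : ℕ) (h : N < (q + 1) * θ) :
    ∃ a : List ℕ, a.length ≤ q ∧ ∀ i < N, θ ≤ Nat.count (fun k => v k = v i) N → v i ∈ a := by
  classical
  set P : Finset ℕ := ((Finset.range N).image v).filter
    (fun x => θ ≤ Nat.count (fun k => v k = x) N) with hP
  refine ⟨P.toList, ?_, fun i hi hc => ?_⟩
  · rw [Finset.length_toList]
    by_contra hcon
    push Not at hcon
    have h1 : (Finset.range N).card = ∑ x ∈ (Finset.range N).image v,
        ((Finset.range N).filter (fun k => v k = x)).card :=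
      Finset.card_eq_sum_card_image v _
    have h2 : ∑ x ∈ P, ((Finset.range N).filter (fun k => v k = x)).card ≤
        ∑ x ∈ (Finset.range N).image v, ((Finset.range N).filter (fun k => v k = x)).card :=
      Finset.sum_le_sum_of_subset (Finset.filter_subset _ _)
    have h3 : P.card * θ ≤ ∑ x ∈ P, ((Finset.range N).filter (fun k => v k = x)).card := by
      rw [← smul_eq_mul]
      refine Finset.card_nsmul_le_sum _ _ _ fun x hx => ?_
      rw [hP, Finset.mem_filter] at hx
      rw [← Nat.count_eq_card_filter_range]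
      exact hx.2
    rw [Finset.card_range] at h1
    have h4 : (q + 1) * θ ≤ P.card * θ := Nat.mul_le_mul_right _ hcon
    omega
  · rw [Finset.mem_toList, hP, Finset.mem_filter]
    exact ⟨Finset.mem_image_of_mem _ (Finset.mem_range.2 hi), hc⟩

/-- entry `i` of window `x.1` of the list `x.2` -/
def val (x : ℕ × List ℕ) (i : ℕ) : ℕ := x.2.getD (x.1 ^ 4 + i) 0 % MM x.1

theorem cSS {α : Type*} [Primcodable α] {f : α → ℕ} (hf : Computable f) :
    Computable fun x => SS (f x) := by unfold SS; fun_prop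

theorem cMM {α : Type*} [Primcodable α] {f : α → ℕ} (hf : Computable f) :
    Computable fun x => MM (f x) := by
  unfold MM
  have := cSS hf
  fun_prop

theorem clen {α : Type*} [Primcodable α] {f : α → ℕ} (hf : Computable f) :
    Computable fun x => len (f x) := by unfold len; fun_prop

theorem cth {α : Type*} [Primcodable α] {f : α → ℕ} (hf : Computable f) :
    Computable fun x => th (f x) := by unfold th; fun_prop

theorem cW {α : Type*} [Primcodable α] {f : α → ℕ} (hf : Computable f) :
    Computable fun x => W (f x) := by unfold W; fun_prop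

attribute [fun_prop] cSS cMM clen cth cW

theorem cval {α : Type*} [Primcodable α] {f : α → ℕ × List ℕ} {g : α → ℕ} (hf : Computable f)
    (hg : Computable g) : Computable fun x => val (f x) (g x) := by unfold val; fun_prop

attribute [fun_prop] cval

/-- the relation for which we select -/
def Vld (x : ℕ × List ℕ) (a : List ℕ) : Prop :=
  a.length ≤ 2 * x.1 + 1 ∧ ∀ i < len x.1,
    Nat.count (fun k => val x k = val x i) (len x.1) < th x.1 ∨ val x i ∈ a

theorem re_Vld : REPred fun y : (ℕ × List ℕ) × List ℕ => Vld y.1 y.2 := by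
  unfold Vld
  refine and (le (by fun_prop) (by fun_prop)) ?_
  refine all_lt (p := fun (y : (ℕ × List ℕ) × List ℕ) i =>
    Nat.count (fun k => val y.1 k = val y.1 i) (len y.1.1) < th y.1.1 ∨ val y.1 i ∈ y.2)
    ?_ (by fun_prop)
  refine or (lt ?_ (by fun_prop)) (mem_list (by fun_prop) (by fun_prop))
  refine ccount (α := ((ℕ × List ℕ) × List ℕ) × ℕ)
    (p := fun z k => val z.1.1 k = val z.1.1 z.2) ?_ (f := fun z => len z.1.1.1) (by fun_prop)
  exact cp_eq (by fun_prop) (by fun_prop)

theorem exists_sel : ∃ sel : ℕ × List ℕ → List ℕ, Computable sel ∧ ∀ x, Vld x (sel x) := by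
  obtain ⟨f, hf, h1, h2⟩ := uniformize re_Vld
  have hd : ∀ x, (f x).Dom := by
    intro x
    rw [h1]
    obtain ⟨a, ha, hb⟩ := pigeon (val x) (len x.1) (2 * x.1 + 1) (th x.1) (len_lt x.1)
    refine ⟨a, ha, fun i hi => ?_⟩
    by_cases hc : Nat.count (fun k => val x k = val x i) (len x.1) < th x.1
    · exact Or.inl hc
    · exact Or.inr (hb i hi (not_lt.1 hc))
  refine ⟨fun x => (f x).get (hd x), hf.of_eq_tot fun x => Part.get_mem _, fun x => ?_⟩
  exact h2 x _ (Part.get_mem _)

theorem val_hist (g : ℕ → ℕ) {j i : ℕ} (hi : i < len j) :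
    val (j, hist g ((j + 1) ^ 4)) i = g (j ^ 4 + i) % MM j := by
  unfold val
  rw [hist_getD]
  have := add_len j
  simp only
  omega

theorem sq_le (j : ℕ) (hj : 100 ≤ j) {i : ℕ} (hi : i < 2 * j + 1) : j ^ 2 + i ≤ 3 * j ^ 3 := by
  have h1 : 100 * j ^ 2 ≤ j ^ 3 := by
    have : j ^ 3 = j * j ^ 2 := by ring
    rw [this]; exact Nat.mul_le_mul_right _ hj
  have h2 : 100 * j ≤ j ^ 2 := by
    have : j ^ 2 = j * j := by ring
    rw [this]; exact Nat.mul_le_mul_right _ hj
  omega

theorem step1 (g : ℕ → ℕ) : ∃ f : ℕ → ℕ, TuringReducible (f : ℕ →. ℕ) (g : ℕ →. ℕ) ∧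
    ∀ r : ℕ → ℕ, (∀ n, r n < 2 ^ n.factorial) → ∀ n0, (∀ n, n0 ≤ n → f n ≠ r n) →
      ∀ j, 100 + n0 ≤ j →
        Nat.count (fun i => g (j ^ 4 + i) % MM j =
          enc (SS j) (fun i => r (j ^ 2 + i)) (2 * j + 1)) (len j) < th j := by
  obtain ⟨sel, hsel, hV⟩ := exists_sel
  refine ⟨fun n => dec (SS (Nat.sqrt n)) ((sel (Nat.sqrt n, hist g ((Nat.sqrt n + 1) ^ 4))).getD
    (n - Nat.sqrt n ^ 2) 0) (n - Nat.sqrt n ^ 2), ?_, ?_⟩
  · refine red_of_tt (Φ := fun n L => dec (SS (Nat.sqrt n)) ((sel (Nat.sqrt n, L)).getD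
      (n - Nat.sqrt n ^ 2) 0) (n - Nat.sqrt n ^ 2)) (u := fun n => (Nat.sqrt n + 1) ^ 4)
      ?_ (by fun_prop) fun n => rfl
    have h1 : Computable fun x : ℕ × List ℕ => sel (Nat.sqrt x.1, x.2) :=
      hsel.comp (by fun_prop)
    unfold Computable₂
    exact cdec (by fun_prop) (cgetD h1 (by fun_prop)) (by fun_prop)
  · intro r hr n0 hn0 j hj
    by_contra hcon
    push Not at hcon
    set R := enc (SS j) (fun i => r (j ^ 2 + i)) (2 * j + 1) with hR
    set x : ℕ × List ℕ := (j, hist g ((j + 1) ^ 4)) with hx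
    have hlt : ∀ i < 2 * j + 1, (fun i => r (j ^ 2 + i)) i < SS j := fun i hi =>
      lt_of_lt_of_le (hr _) (pow_fact_le (by omega) (sq_le j (by omega) hi))
    have hpos : 0 < Nat.count (fun i => g (j ^ 4 + i) % MM j = R) (len j) :=
      lt_of_lt_of_le (by unfold th; omega) hcon
    obtain ⟨i0, hi0, hi1⟩ : ∃ i < len j, g (j ^ 4 + i) % MM j = R := by
      rw [Nat.count_eq_card_filter_range, Finset.card_pos] at hpos
      obtain ⟨i, hi⟩ := hpos
      rw [Finset.mem_filter, Finset.mem_range] at hi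
      exact ⟨i, hi.1, hi.2⟩
    have hv : val x i0 = R := by rw [hx, val_hist g hi0, hi1]
    have hcnt : Nat.count (fun k => val x k = val x i0) (len x.1) =
        Nat.count (fun i => g (j ^ 4 + i) % MM j = R) (len j) := by
      refine count_congr' fun i hi => ?_
      rw [hv, hx, val_hist g hi]
    have hmem : R ∈ sel x := by
      rcases (hV x).2 i0 hi0 with h1 | h1
      · rw [hcnt] at h1; exact absurd hcon (not_le.2 h1)
      · rwa [hv] at h1
    obtain ⟨k, hk, hk1⟩ := List.getElem_of_mem hmem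
    have hk2 : k < 2 * j + 1 := lt_of_lt_of_le hk (hV x).1
    have hs : Nat.sqrt (j ^ 2 + k) = j := by
      symm
      rw [Nat.eq_sqrt']
      constructor
      · omega
      · have : (j + 1) ^ 2 = j ^ 2 + 2 * j + 1 := by ring
        omega
    refine hn0 (j ^ 2 + k) ?_ ?_
    · have : j ≤ j ^ 2 := Nat.le_self_pow (by norm_num) j
      omega
    · simp only [hs]
      have e1 : j ^ 2 + k - j ^ 2 = k := by omega
      rw [e1, ← hx, List.getD_eq_getElem _ _ hk, hk1, hR, enc_dec hlt hk2]

end Pool.Agent.X43.QE
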