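import Mathlib
import Pool.Agent.Helper446.Comp
import Pool.Agent.Helper298.Oracle

/-! Computability tools: powers, counting, digit codes, reductions by graphs. -/

set_option autoImplicit false

namespace Pool.Agent.X43.QE

open Pool.Agent.Helper446.RE Pool.Agent.Helper298.Oracle Encodable

section tools

variable {α : Type*} [Primcodable α]

@[fun_prop] theorem cdiv {f g : α → ℕ} (hf : Computable f) (hg : Computable g) :
    Computable (fun x => f x / g x) := Primrec.nat_div.to_comp.comp hf hg

@[fun_prop] theorem cmod {f g : α → ℕ} (hf : Computable f) (hg : Computable g) :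
    Computable (fun x => f x % g x) := Primrec.nat_mod.to_comp.comp hf hg

theorem nat_rec_comp {f : α → ℕ} {g : α → ℕ} {h : α → ℕ → ℕ → ℕ} (hf : Computable f)
    (hg : Computable g) (hh : Computable fun x : α × (ℕ × ℕ) => h x.1 x.2.1 x.2.2) :
    Computable fun a => (Nat.rec (g a) (fun y ih => h a y ih) (f a) : ℕ) :=
  Computable.nat_rec (f := f) (g := g) (h := fun (a : α) (y : ℕ × ℕ) => h a y.1 y.2) hf hg hh

@[fun_prop] theorem cpow {f g : α → ℕ} (hf : Computable f) (hg : Computable g) :
    Computable (fun x => f x ^ g x) := by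
  have h := nat_rec_comp (f := g) (g := fun _ : α => 1) (h := fun (a : α) _ ih => ih * f a) hg
    (Computable.const 1) (by fun_prop)
  refine h.of_eq fun a => ?_
  generalize g a = n
  induction n with
  | zero => rfl
  | succ n ih => rw [pow_succ, ← ih]

@[fun_prop] theorem cfact {f : α → ℕ} (hf : Computable f) :
    Computable (fun x => Nat.factorial (f x)) := by
  have h := nat_rec_comp (f := f) (g := fun _ : α => 1) (h := fun (a : α) y ih => (y + 1) * ih) hf
    (Computable.const 1) (by fun_prop)
  refine h.of_eq fun a => ?_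
  generalize f a = n
  induction n with
  | zero => rfl
  | succ n ih => rw [Nat.factorial_succ, ← ih]

theorem csqrt0 : Computable Nat.sqrt := by
  refine (Primrec.nat_findGreatest (f := fun n : ℕ => n) (p := fun n k => k * k ≤ n)
    Primrec.id (Primrec.nat_le.comp (Primrec.nat_mul.comp Primrec.snd Primrec.snd)
      Primrec.fst)).to_comp.of_eq fun n => ?_
  rw [Nat.findGreatest_eq_iff]
  refine ⟨Nat.sqrt_le_self n, fun _ => Nat.sqrt_le n, fun k hk _ => ?_⟩
  rw [not_le]
  exact Nat.sqrt_lt.1 hk

@[fun_prop] theorem csqrt {f : α → ℕ} (hf : Computable f) :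
    Computable (fun x => Nat.sqrt (f x)) := csqrt0.comp hf

@[fun_prop] theorem cgetD {f : α → List ℕ} {g : α → ℕ} (hf : Computable f) (hg : Computable g) :
    Computable (fun x => (f x).getD (g x) 0) := (Primrec.list_getD 0).to_comp.comp hf hg

theorem ccount {p : α → ℕ → Prop} [∀ a, DecidablePred (p a)]
    (hp : ComputablePred fun x : α × ℕ => p x.1 x.2) {f : α → ℕ} (hf : Computable f) :
    Computable fun a => Nat.count (p a) (f a) := by
  have hd : Computable fun x : α × ℕ => decide (p x.1 x.2) := hp.decide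
  have hstep : Computable fun x : α × (ℕ × ℕ) =>
      x.2.2 + (bif decide (p x.1 x.2.1) then 1 else 0) := by
    have h1 : Computable fun x : α × (ℕ × ℕ) => decide (p x.1 x.2.1) :=
      hd.comp (g := fun x : α × (ℕ × ℕ) => (x.1, x.2.1)) (by fun_prop)
    exact cadd (by fun_prop) (ccond h1 (Computable.const 1) (Computable.const 0))
  have h := nat_rec_comp (f := f) (g := fun _ : α => 0)
    (h := fun (a : α) y ih => ih + (bif decide (p a y) then 1 else 0)) hf
    (Computable.const 0) hstep
  refine h.of_eq fun a => ?_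
  generalize f a = n
  induction n with
  | zero => rfl
  | succ n ih =>
    rw [Nat.count_succ, ← ih]
    by_cases hp : p a n <;> simp [hp]

/-- base `S` code of `r 0, …, r (q-1)` -/
def enc (S : ℕ) (r : ℕ → ℕ) : ℕ → ℕ
  | 0 => 0
  | q + 1 => enc S r q + r q * S ^ q

/-- digit `i` in base `S` -/
def dec (S v i : ℕ) : ℕ := v / S ^ i % S

@[fun_prop] theorem cdec {f g k : α → ℕ} (hf : Computable f) (hg : Computable g)
    (hk : Computable k) : Computable (fun x => dec (f x) (g x) (k x)) := by
  unfold dec; fun_prop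

theorem cenc {S : α → ℕ} {r : α → ℕ → ℕ} {q : α → ℕ} (hS : Computable S)
    (hr : Computable fun x : α × ℕ => r x.1 x.2) (hq : Computable q) :
    Computable fun a => enc (S a) (r a) (q a) := by
  have hstep : Computable fun x : α × (ℕ × ℕ) => x.2.2 + r x.1 x.2.1 * S x.1 ^ x.2.1 := by
    have h1 : Computable fun x : α × (ℕ × ℕ) => r x.1 x.2.1 :=
      hr.comp (g := fun x : α × (ℕ × ℕ) => (x.1, x.2.1)) (by fun_prop)
    exact cadd (by fun_prop) (cmul h1 (by fun_prop))
  have h := nat_rec_comp (f := q) (g := fun _ : α => 0)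
    (h := fun (a : α) y ih => ih + r a y * S a ^ y) hq (Computable.const 0) hstep
  refine h.of_eq fun a => ?_
  generalize q a = n
  induction n with
  | zero => rfl
  | succ n ih => simp only [enc]; rw [← ih]

end tools

theorem enc_lt {S : ℕ} {r : ℕ → ℕ} {q : ℕ} (h : ∀ i < q, r i < S) : enc S r q < S ^ q := by
  induction q with
  | zero => simp [enc]
  | succ q ih =>
    have h1 := ih fun i hi => h i (by omega)
    have h2 := h q (by omega)
    simp only [enc]
    calc enc S r q + r q * S ^ q < S ^ q + r q * S ^ q := by omega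
      _ = (r q + 1) * S ^ q := by ring
      _ ≤ S * S ^ q := Nat.mul_le_mul_right _ h2
      _ = S ^ (q + 1) := by ring

theorem enc_dec {S : ℕ} {r : ℕ → ℕ} {q : ℕ} (h : ∀ i < q, r i < S) {i : ℕ} (hi : i < q) :
    dec S (enc S r q) i = r i := by
  induction q with
  | zero => omega
  | succ q ih =>
    have hq : ∀ i < q, r i < S := fun i hi => h i (by omega)
    have h0 : 0 < S := lt_of_le_of_lt (Nat.zero_le _) (h 0 (by omega))
    simp only [enc, dec]
    rcases Nat.lt_succ_iff_lt_or_eq.1 hi with h1 | h1
    · have h2 := ih hq h1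
      unfold dec at h2
      have h3 : r q * S ^ q = S ^ i * (S * (r q * S ^ (q - i - 1))) := by
        have : q = i + (1 + (q - i - 1)) := by omega
        conv_lhs => rw [this, pow_add, pow_add]
        have e : i + (1 + (q - i - 1)) = q := by omega
        rw [e]; ring
      rw [h3, Nat.add_mul_div_left _ _ (Nat.pow_pos h0), Nat.add_mul_mod_self_left, h2]
    · subst h1
      rw [Nat.add_mul_div_right _ _ (Nat.pow_pos h0), Nat.div_eq_of_lt (enc_lt hq), zero_add,
        Nat.mod_eq_of_lt (h i (by omega))]

/-- the first `n` values of `g` -/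
def hist (g : ℕ → ℕ) (n : ℕ) : List ℕ := (List.range n).map g

theorem hist_length (g : ℕ → ℕ) (n : ℕ) : (hist g n).length = n := by simp [hist]

theorem hist_getD (g : ℕ → ℕ) {n i : ℕ} (h : i < n) : (hist g n).getD i 0 = g i := by
  simp [hist, h, List.getD]

/-- A total function whose graph is recursively enumerable in the initial segments of `g` is
Turing reducible to `g`. -/
theorem red_of_graph {f g : ℕ → ℕ} {R : (ℕ × ℕ) × List ℕ → Prop} (hR : REPred R)
    (h1 : ∀ n, ∃ k, R ((n, f n), hist g k)) (h2 : ∀ n m k, R ((n, m), hist g k) → m = f n) :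
    TuringReducible (f : ℕ →. ℕ) (g : ℕ →. ℕ) := by
  obtain ⟨q, hq, h⟩ := re_iff.1 hR
  unfold TuringReducible
  rw [RecursiveIn.iff_nat]
  have e1 : ((g : ℕ →. ℕ)) = (fun n => Part.some (g n)) := rfl
  rw [e1]
  set O : Set (ℕ →. ℕ) := {(fun n => Part.some (g n) : ℕ →. ℕ)} with hO
  -- the test
  let tst : ℕ → ℕ := fun z => if q ((z.unpair.1, z.unpair.2.unpair.1),
    hist g z.unpair.2.unpair.2.unpair.1) z.unpair.2.unpair.2.unpair.2 = true then 0 else 1
  have hk : Nat.RecursiveIn O (fun z => Part.some
      (encode (hist g z.unpair.2.unpair.2.unpair.1))) := by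
    refine Nat.RecursiveIn.of_eq (.comp (hist_rec g)
      (nat_rec_in (f := fun z => z.unpair.2.unpair.2.unpair.1) (by fun_prop) O)) fun z => ?_
    simp [hist]
  have hp : Nat.RecursiveIn O (fun z => Part.some (Nat.pair z
      (encode (hist g z.unpair.2.unpair.2.unpair.1)))) := by
    refine Nat.RecursiveIn.of_eq (.pair (nat_rec_in Computable.id O) hk) fun z => ?_
    simp [Seq.seq]
  have hc : Computable fun w : ℕ => (bif q ((w.unpair.1.unpair.1, w.unpair.1.unpair.2.unpair.1),
      (decode (α := List ℕ) w.unpair.2).getD []) w.unpair.1.unpair.2.unpair.2.unpair.2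
      then 0 else 1 : ℕ) := by
    refine Computable.cond ?_ (Computable.const 0) (Computable.const 1)
    refine hq.comp ?_ (by fun_prop)
    refine Computable.pair (by fun_prop) ?_
    exact (Primrec.option_getD.comp (Primrec.decode.comp (Primrec.snd.comp Primrec.unpair))
        (Primrec.const [])).to_comp
  have ht : Nat.RecursiveIn O (fun z => Part.some (tst z)) := by
    refine Nat.RecursiveIn.of_eq (.comp (nat_rec_in hc O) hp) fun z => ?_
    simp [tst, cond_eq_ite]
  have hf0 := Nat.RecursiveIn.rfind ht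
  have hout : Nat.RecursiveIn O (fun z => Part.some (z.unpair.1)) :=
    nat_rec_in (by fun_prop) O
  refine Nat.RecursiveIn.of_eq (.comp hout hf0) fun n => ?_
  have hdom : (Nat.rfind fun z => (fun m => decide (m = 0)) <$>
      (Part.some (tst (Nat.pair n z)) : Part ℕ)).Dom := by
    obtain ⟨k, hk⟩ := h1 n
    obtain ⟨s, hs⟩ := (h _).1 hk
    rw [Nat.rfind_dom]
    refine ⟨Nat.pair (f n) (Nat.pair k s), ?_, fun {m} _ => by simp⟩
    simp [tst, hs]
  obtain ⟨z, hz⟩ := Part.dom_iff_mem.1 hdom
  have hz1 := (Nat.mem_rfind.1 hz).1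
  have hz2 : q ((n, z.unpair.1), hist g z.unpair.2.unpair.1) z.unpair.2.unpair.2 = true := by
    by_contra hcon
    simp [tst, hcon] at hz1
  have hz3 := h2 _ _ _ ((h _).2 ⟨_, hz2⟩)
  have e2 := Part.eq_some_iff.2 hz
  simp only [Part.bind_eq_bind] at *
  rw [show (Nat.rfind fun n_1 => (fun m => decide (m = 0)) <$>
      (Part.some (tst (Nat.pair n n_1)) : Part ℕ)) = Part.some z from e2]
  simp [hz3]

end Pool.Agent.X43.QE
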