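import Pool.Agent.X43.QE.C

/-! The sparse set of correct guesses, and the main theorem. -/

set_option autoImplicit false

namespace Pool.Agent.X43.QE

open Pool.Agent.Helper446.RE Pool.Agent.Helper298.Oracle Encodable

/-- `f` agrees infinitely often with every computable function below `h` -/
def IOE (h : ℕ → ℕ) : Set (ℕ → ℕ) :=
  {f | ∀ r : ℕ → ℕ, Computable r → (∀ n, r n < h n) → {n | f n = r n}.Infinite}

/-- the code of `r` in window `j` -/
def RR (r : ℕ → ℕ) (j : ℕ) : ℕ := enc (SS j) (fun i => r (j ^ 2 + i)) (2 * j + 1)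

theorem cRR {α : Type*} [Primcodable α] {r : ℕ → ℕ} (hr : Computable r) {f : α → ℕ}
    (hf : Computable f) : Computable fun x => RR r (f x) := by
  unfold RR
  refine cenc (cSS hf) ?_ (by fun_prop)
  exact hr.comp (by fun_prop)

/-- a correct guess at `t` -/
def AA (g r : ℕ → ℕ) (t : ℕ) : Prop := g t % MM (W t) = RR r (W t)

instance (g r : ℕ → ℕ) : DecidablePred (AA g r) := fun _ => by unfold AA; infer_instance

/-- the same, read off from a list -/
def AL (r : ℕ → ℕ) (L : List ℕ) (t : ℕ) : Prop := L.getD t 0 % MM (W t) = RR r (W t)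

instance (r : ℕ → ℕ) (L : List ℕ) : DecidablePred (AL r L) :=
  fun _ => by unfold AL; infer_instance

theorem AL_hist {g r : ℕ → ℕ} {k t : ℕ} (h : t < k) : AL r (hist g k) t ↔ AA g r t := by
  unfold AL AA; rw [hist_getD g h]

theorem cp_AL {α : Type*} [Primcodable α] {r : ℕ → ℕ} (hr : Computable r) {L : α → List ℕ}
    {t : α → ℕ} (hL : Computable L) (ht : Computable t) :
    ComputablePred fun x => AL r (L x) (t x) := by
  unfold AL
  have := cRR (α := α) hr (f := fun x => W (t x)) (by fun_prop)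
  exact cp_eq (by fun_prop) this

section

variable {g r : ℕ → ℕ} {n0 : ℕ}

theorem count_bound (hc : ∀ j, 100 + n0 ≤ j →
    Nat.count (fun i => g (j ^ 4 + i) % MM j = RR r j) (len j) < th j) (j : ℕ) :
    Nat.count (AA g r) (j ^ 4) ≤ (100 + n0) ^ 4 + 2 * j ^ 3 := by
  induction j with
  | zero => simp
  | succ j ih =>
    by_cases hj : j + 1 ≤ 100 + n0
    · have h1 : Nat.count (AA g r) ((j + 1) ^ 4) ≤ (j + 1) ^ 4 := Nat.count_le _
      have h2 : (j + 1) ^ 4 ≤ (100 + n0) ^ 4 := Nat.pow_le_pow_left hj 4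
      omega
    · have hj' : 100 + n0 ≤ j := by omega
      rw [← add_len, Nat.count_add]
      have h3 : Nat.count (fun k => AA g r (j ^ 4 + k)) (len j) =
          Nat.count (fun i => g (j ^ 4 + i) % MM j = RR r j) (len j) := by
        refine count_congr' fun i hi => ?_
        unfold AA
        rw [W_add hi]
      have h4 := hc j hj'
      unfold th at h4
      have h5 : 2 * (j + 1) ^ 3 = 2 * j ^ 3 + 6 * j ^ 2 + 6 * j + 2 := by ring
      rw [h3]
      omega

/-- bound for the number of correct guesses before `t` -/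
def NN (n0 j : ℕ) : ℕ := (100 + n0) ^ 4 + 2 * (j + 1) ^ 3

theorem count_lt (hc : ∀ j, 100 + n0 ≤ j →
    Nat.count (fun i => g (j ^ 4 + i) % MM j = RR r j) (len j) < th j) (t : ℕ) :
    Nat.count (AA g r) t ≤ NN n0 (W t) :=
  le_trans (Nat.count_monotone _ (W_spec t).2.le) (count_bound hc (W t + 1))

theorem NN_le {n0 j : ℕ} (hj : (100 + n0) ^ 4 + 100 ≤ j) : NN n0 j ≤ 3 * j ^ 3 := by
  unfold NN
  have h1 : 100 * j ^ 2 ≤ j ^ 3 := by
    have : j ^ 3 = j * j ^ 2 := by ring
    rw [this]; exact Nat.mul_le_mul_right _ (by omega)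
  have h2 : 100 * j ≤ j ^ 2 := by
    have : j ^ 2 = j * j := by ring
    rw [this]; exact Nat.mul_le_mul_right _ (by omega)
  have h5 : 2 * (j + 1) ^ 3 = 2 * j ^ 3 + 6 * j ^ 2 + 6 * j + 2 := by ring
  omega

theorem key (hg : g ∈ IOE (fun n => 2 ^ 2 ^ n)) (hrc : Computable r)
    (hr : ∀ n, r n < 2 ^ n.factorial) (hc : ∀ j, 100 + n0 ≤ j →
    Nat.count (fun i => g (j ^ 4 + i) % MM j = RR r j) (len j) < th j)
    {ρ : ℕ → ℕ} (hρc : Computable ρ) (hρ : ∀ n, ρ n < 2 ^ n.factorial) :
    {t | AA g r t ∧ dec (SS (W t)) (g t / MM (W t)) (Nat.count (AA g r) t) =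
      ρ (Nat.count (AA g r) t)}.Infinite := by
  set j2 := (100 + n0) ^ 4 + 100 with hj2
  let s : ℕ → ℕ := fun t => bif decide (j2 ≤ W t) then
    RR r (W t) + enc (SS (W t)) ρ (NN n0 (W t) + 1) * MM (W t) else 0
  have hsc : Computable s := by
    refine ccond (cdecide (cp_le (by fun_prop) (by fun_prop))) ?_ (Computable.const 0)
    refine cadd (cRR hrc (by fun_prop)) (cmul (cenc (by fun_prop) ?_ ?_) (by fun_prop))
    · exact hρc.comp (f := ρ) (g := fun x : ℕ × ℕ => x.2) (by fun_prop)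
    · unfold NN; fun_prop
  have hR : ∀ j, j2 ≤ j → RR r j < MM j := by
    intro j hj
    unfold RR MM
    refine enc_lt fun i hi => ?_
    exact lt_of_lt_of_le (hr _) (pow_fact_le (by omega) (sq_le j (by omega) hi))
  have hE0 : ∀ j, j2 ≤ j → ∀ i < NN n0 j + 1, ρ i < SS j := by
    intro j hj i hi
    have := NN_le (n0 := n0) hj
    exact lt_of_lt_of_le (hρ _) (pow_fact_le (by omega) (by omega))
  have hs : ∀ t, s t < 2 ^ 2 ^ t := by
    intro t
    by_cases hj : j2 ≤ W t
    · have hj100 : 100 ≤ W t := by omega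
      simp only [s, hj, decide_true, cond_true]
      have h1 := hR _ hj
      have h2 : enc (SS (W t)) ρ (NN n0 (W t) + 1) < SS (W t) ^ (2 ^ (W t)) := by
        refine lt_of_lt_of_le (enc_lt (hE0 _ hj)) (Nat.pow_le_pow_right (SS_pos _) ?_)
        have := NN_le (n0 := n0) hj
        have := slots hj100
        omega
      have h3 := room hj100 (W_spec t).1
      calc RR r (W t) + enc (SS (W t)) ρ (NN n0 (W t) + 1) * MM (W t)
          < MM (W t) + enc (SS (W t)) ρ (NN n0 (W t) + 1) * MM (W t) := by omega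
        _ = MM (W t) * (enc (SS (W t)) ρ (NN n0 (W t) + 1) + 1) := by ring
        _ ≤ MM (W t) * SS (W t) ^ (2 ^ (W t)) := Nat.mul_le_mul_left _ h2
        _ ≤ 2 ^ 2 ^ t := h3
    · simp only [s, hj, decide_false, cond_false]
      positivity
  have hinf := hg s hsc hs
  have hinf2 : ({t | g t = s t} \ {t | t < j2 ^ 4}).Infinite :=
    hinf.diff (Set.finite_lt_nat _)
  refine hinf2.mono ?_
  rintro t ⟨ht1, ht2⟩
  simp only [Set.mem_setOf_eq, not_lt] at ht1 ht2
  have hj : j2 ≤ W t := W_ge ht2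
  simp only [s, hj, decide_true, cond_true] at ht1
  have h1 := hR _ hj
  have h2 : g t % MM (W t) = RR r (W t) := by
    rw [ht1, Nat.add_mul_mod_self_right, Nat.mod_eq_of_lt h1]
  have h3 : g t / MM (W t) = enc (SS (W t)) ρ (NN n0 (W t) + 1) := by
    rw [ht1, Nat.add_mul_div_right _ _ (MM_pos _), Nat.div_eq_of_lt h1, zero_add]
  refine ⟨h2, ?_⟩
  rw [h3]
  have h4 := count_lt hc t
  exact enc_dec (hE0 _ hj) (by omega)

theorem step2 (hg : g ∈ IOE (fun n => 2 ^ 2 ^ n)) (hrc : Computable r)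
    (hr : ∀ n, r n < 2 ^ n.factorial) (hc : ∀ j, 100 + n0 ≤ j →
    Nat.count (fun i => g (j ^ 4 + i) % MM j = RR r j) (len j) < th j) :
    ∃ f ∈ IOE (fun n => 2 ^ n.factorial), TuringReducible (f : ℕ →. ℕ) (g : ℕ →. ℕ) := by
  have hinf : (setOf (AA g r)).Infinite := by
    refine (key hg hrc hr hc (ρ := fun _ => 0) (Computable.const 0)
      (fun n => by positivity)).mono ?_
    intro t ht; exact ht.1
  refine ⟨fun n => dec (SS (W (Nat.nth (AA g r) n))) (g (Nat.nth (AA g r) n) /
    MM (W (Nat.nth (AA g r) n))) n, ?_, ?_⟩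
  · intro ρ hρc hρ
    have h1 := key hg hrc hr hc hρc hρ
    have h2 : (Nat.count (AA g r) '' {t | AA g r t ∧
        dec (SS (W t)) (g t / MM (W t)) (Nat.count (AA g r) t) =
          ρ (Nat.count (AA g r) t)}).Infinite := by
      refine h1.image ?_
      intro t ht t' ht' he
      exact Nat.count_injective ht.1 ht'.1 he
    refine h2.mono ?_
    rintro _ ⟨t, ⟨ht1, ht2⟩, rfl⟩
    simp only [Set.mem_setOf_eq]
    rw [Nat.nth_count ht1, ht2]
  · refine red_of_graph (R := fun y => ∃ t, t < y.2.length ∧ AL r y.2 t ∧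
      Nat.count (AL r y.2) t = y.1.1 ∧
      y.1.2 = dec (SS (W t)) (y.2.getD t 0 / MM (W t)) y.1.1) ?_ ?_ ?_
    · refine exN (p := fun (y : (ℕ × ℕ) × List ℕ) t => t < y.2.length ∧ AL r y.2 t ∧
        Nat.count (AL r y.2) t = y.1.1 ∧
        y.1.2 = dec (SS (W t)) (y.2.getD t 0 / MM (W t)) y.1.1) ?_
      refine and (lt (by fun_prop) (by fun_prop)) (and ?_ (and ?_ ?_))
      · exact of_comput (cp_AL hrc (by fun_prop) (by fun_prop))
      · refine eq ?_ (by fun_prop)
        exact ccount (α := ((ℕ × ℕ) × List ℕ) × ℕ) (p := fun x s => AL r x.1.2 s)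
          (cp_AL hrc (by fun_prop) (by fun_prop)) (f := fun x => x.2) (by fun_prop)
      · exact eq (by fun_prop) (by fun_prop)
    · intro n
      have h1 : AA g r (Nat.nth (AA g r) n) := Nat.nth_mem_of_infinite hinf n
      refine ⟨Nat.nth (AA g r) n + 1, Nat.nth (AA g r) n, ?_, ?_, ?_, ?_⟩
      · rw [hist_length]; omega
      · rw [AL_hist (Nat.lt_succ_self _)]; exact h1
      · have : Nat.count (AL r (hist g (Nat.nth (AA g r) n + 1))) (Nat.nth (AA g r) n) =
            Nat.count (AA g r) (Nat.nth (AA g r) n) :=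
          count_congr' fun i hi => AL_hist (by omega)
        simp only
        rw [this, Nat.count_nth_of_infinite hinf]
      · simp only
        rw [hist_getD _ (Nat.lt_succ_self _)]
    · rintro n m k ⟨t, ht, h1, h2, h3⟩
      simp only [hist_length] at ht h1 h2 h3
      rw [AL_hist ht] at h1
      have e1 : Nat.count (AL r (hist g k)) t = Nat.count (AA g r) t :=
        count_congr' fun i hi => AL_hist (by omega)
      rw [e1] at h2
      have e2 : Nat.nth (AA g r) n = t := by rw [← h2]; exact Nat.nth_count h1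
      rw [hist_getD _ ht] at h3
      simp only [e2]
      exact h3

end

/-- the main theorem -/
theorem main {g : ℕ → ℕ} (hg : g ∈ IOE (fun n => 2 ^ 2 ^ n)) :
    ∃ f ∈ IOE (fun n => 2 ^ n.factorial), TuringReducible (f : ℕ →. ℕ) (g : ℕ →. ℕ) := by
  obtain ⟨f1, hf1, h1⟩ := step1 g
  by_cases h : f1 ∈ IOE (fun n => 2 ^ n.factorial)
  · exact ⟨f1, h, hf1⟩
  · unfold IOE at h
    simp only [Set.mem_setOf_eq, not_forall] at h
    obtain ⟨r, hrc, hr, hfin⟩ := h
    rw [Set.not_infinite] at hfin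
    obtain ⟨n0, hn0⟩ := hfin.bddAbove
    have h2 := h1 r hr (n0 + 1) fun n hn he => by
      have := hn0 he
      omega
    exact step2 (n0 := n0 + 1) hg hrc hr h2

theorem converse : IOE (fun n => 2 ^ n.factorial) ⊆ IOE (fun n => 2 ^ 2 ^ n) := by
  intro f hf r hrc hr
  have h1 := hf (fun n => bif decide (4 ≤ n) then r n else 0) ?_ ?_
  · have h2 := h1.diff (Set.finite_lt_nat 4)
    refine h2.mono ?_
    rintro n ⟨hn1, hn2⟩
    simp only [Set.mem_setOf_eq, not_lt] at hn1 hn2
    simpa [hn2] using hn1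
  · exact ccond (cdecide (cp_le (by fun_prop) (by fun_prop))) hrc (Computable.const 0)
  · intro n
    by_cases hn : 4 ≤ n
    · simp only [hn, decide_true, cond_true]
      exact lt_of_lt_of_le (hr n) (Nat.pow_le_pow_right (by norm_num) (two_pow_le_fact hn))
    · simp only [hn, decide_false, cond_false]
      positivity

end Pool.Agent.X43.QE
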